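import Pool.Agent.Run7.h505.RW.E

/-!
Examples: arbitrarily large finite `p`-groups with a commutative subgroup of index at most `p` and a
subgroup of order at most `p` whose normal closure has index at most `p ^ 2`.
-/

set_option autoImplicit false

namespace Run7.h505.RW

open Run7.h505.RV

theorem index_of_sup {G : Type} [Group G] [Finite G] (A H : Subgroup G) [A.Normal]
    (hAH : A ⊔ H = ⊤) : A.index ≤ Nat.card H := by
  have h1 : Nat.card (A ⊔ H : Subgroup G) ≤ Nat.card A * Nat.card H := card_sup_le A H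
  rw [hAH, Subgroup.card_top] at h1
  have e4 := A.card_mul_index
  have hApos : 0 < Nat.card A := Nat.card_pos
  apply Nat.le_of_mul_le_mul_left _ hApos
  rw [e4]
  exact h1

theorem examples_H (p : ℕ) [hp : Fact p.Prime] (k : ℕ) :
    ∃ (G : Type) (_ : Group G) (_ : Fintype G), IsPGroup p G ∧ k ≤ Fintype.card G ∧
      ∃ A H : Subgroup G, (∀ a ∈ A, ∀ b ∈ A, a * b = b * a) ∧ A.index ≤ p ∧ Nat.card H ≤ p ∧
        (Subgroup.normalClosure (H : Set G)).index ≤ p ^ 2 := by
  obtain ⟨G, hG1, hG2, h1, h2, ⟨A, H, hAn, hA, hAH, hH⟩, h3⟩ := examples_all p k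
  refine ⟨G, hG1, hG2, h1, (Nat.lt_pow_self hp.out.one_lt).le.trans h2, A, H, hA,
    (index_of_sup A H hAH).trans hH, hH, (closure_index A H hA hAH).trans h3⟩

end Run7.h505.RW
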