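import Pool.Agent.Run7.h505.RV.K

/-!
Good left ideals for finite groups with a commutative subgroup of bounded index and a subgroup of
bounded order whose normal closure has bounded index.
-/

set_option autoImplicit false

namespace Run7.h505.RW

open Module Finset Run7.h505.RT Run7.h505.RV
open scoped Pointwise commutatorElement

variable {F : Type} [Field F] {G : Type} [Group G]

/-- conjugates by elements of a normal commutative subgroup -/
theorem conj_gen {d : ℕ} (A : Subgroup G) [A.Normal] (hA : ∀ a ∈ A, ∀ b ∈ A, a * b = b * a)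
    (g : Fin d → G) (hg : A = Subgroup.closure (Set.range g)) (St : Subgroup G) (h : G)
    (h0 : h ∈ St) (h1 : ∀ i, g i * h * (g i)⁻¹ ∈ St) : ∀ a ∈ A, a * h * a⁻¹ ∈ St := by
  have hconj : ∀ b ∈ A, h * b * h⁻¹ ∈ A := fun b hb =>
    (inferInstance : A.Normal).conj_mem b hb h
  let P : Subgroup G :=
    { carrier := {a | a ∈ A ∧ a * h * a⁻¹ * h⁻¹ ∈ St}
      one_mem' := ⟨A.one_mem, by simp [St.one_mem]⟩
      mul_mem' := by
        rintro a b ⟨ha, ha2⟩ ⟨hb, hb2⟩
        refine ⟨A.mul_mem ha hb, ?_⟩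
        have h1 : h * b⁻¹ * h⁻¹ ∈ A := hconj _ (A.inv_mem hb)
        have h2 : h * a⁻¹ * h⁻¹ ∈ A := hconj _ (A.inv_mem ha)
        have h3 := hA _ h1 _ h2
        have h4 : b * (h * a⁻¹ * h⁻¹) = (h * a⁻¹ * h⁻¹) * b := hA _ hb _ h2
        have e : (a * b) * h * (a * b)⁻¹ * h⁻¹ = a * h * a⁻¹ * h⁻¹ * (b * h * b⁻¹ * h⁻¹) := by
          calc (a * b) * h * (a * b)⁻¹ * h⁻¹ =
              a * (b * ((h * b⁻¹ * h⁻¹) * (h * a⁻¹ * h⁻¹))) := by group
            _ = a * ((b * (h * a⁻¹ * h⁻¹)) * (h * b⁻¹ * h⁻¹)) := by rw [h3]; group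
            _ = a * (((h * a⁻¹ * h⁻¹) * b) * (h * b⁻¹ * h⁻¹)) := by rw [h4]
            _ = _ := by group
        rw [e]
        exact St.mul_mem ha2 hb2
      inv_mem' := by
        rintro a ⟨ha, ha2⟩
        refine ⟨A.inv_mem ha, ?_⟩
        have h2 : h * a * h⁻¹ ∈ A := hconj _ ha
        have e : a⁻¹ * h * a⁻¹⁻¹ * h⁻¹ = (a * h * a⁻¹ * h⁻¹)⁻¹ := by
          have h3 := hA _ (A.inv_mem ha) _ h2
          calc a⁻¹ * h * a⁻¹⁻¹ * h⁻¹ = a⁻¹ * (h * a * h⁻¹) := by group
            _ = (h * a * h⁻¹) * a⁻¹ := h3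
            _ = _ := by group
        rw [e]
        exact St.inv_mem ha2 }
  have hP : A ≤ P := by
    conv_lhs => rw [hg]
    rw [Subgroup.closure_le]
    rintro _ ⟨i, rfl⟩
    have hgi : g i ∈ A := by
      rw [hg]
      exact Subgroup.subset_closure ⟨i, rfl⟩
    exact ⟨hgi, St.mul_mem (h1 i) (St.inv_mem h0)⟩
  intro a ha
  have h2 : a * h * a⁻¹ * h⁻¹ ∈ St := (hP ha).2
  have h3 := St.mul_mem h2 h0
  rwa [inv_mul_cancel_right] at h3

/-- the bound needed for the existence theorem -/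
theorem fix_bound2 [Finite G] {d : ℕ} {ι : Type} [Fintype ι] (A H : Subgroup G) [A.Normal]
    (hA : ∀ a ∈ A, ∀ b ∈ A, a * b = b * a) (g : Fin d → G)
    (hg : A = Subgroup.closure (Set.range g)) (t : ι → G) (ht : ∀ x : G, ∃ j, ∃ a ∈ A, x = a * t j)
    {M : ℕ} (hM : (Subgroup.normalClosure (H : Set G)).index ≤ M)
    (V : Submodule F (G → F)) (hV : ∀ v ∈ V, ∀ a : G, R F a v ∈ V) :
    finrank F V + (Fintype.card ι * (d + 1)) * finrank F (V ⊓ Fix F H : Submodule F (G → F)) ≤
      (Fintype.card ι * (d + 1)) * finrank F V + M := by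
  classical
  have := Fintype.ofFinite G
  set gs : Option (Fin d) → G := fun i => i.elim 1 g with hgs
  have h1 := dim_inter (F := F) V (univ : Finset (ι × Option (Fin d)))
    (fun i => (Fix F H).map (R F (gs i.2 * t i.1)))
  rw [Finset.sum_congr rfl fun i _ => finrank_conj V hV H (gs i.2 * t i.1), Finset.sum_const,
    Finset.card_univ, Fintype.card_prod, Fintype.card_option, Fintype.card_fin, smul_eq_mul] at h1
  refine h1.trans (Nat.add_le_add_left ?_ _)
  refine le_trans ?_ hM
  rw [← finrank_Fix (F := F)]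
  apply Submodule.finrank_mono
  rintro f ⟨_, hf⟩
  -- the stabilizer of `f`
  let St : Subgroup G :=
    { carrier := {x | R F x f = f}
      one_mem' := by show R F 1 f = f; rw [R_one]; rfl
      mul_mem' := by
        intro x y hx hy
        have hx' : R F x f = f := hx
        have hy' : R F y f = f := hy
        show R F (x * y) f = f
        rw [RT.R_mul, Module.End.mul_apply, hy', hx']
      inv_mem' := by
        intro x hx
        have hx' : R F x f = f := hx
        show R F x⁻¹ f = f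
        conv_lhs => rw [← hx']
        rw [← Module.End.mul_apply, ← RT.R_mul, inv_mul_cancel, R_one]
        rfl }
  have hmem : ∀ (j : ι) (i : Option (Fin d)), ∀ h ∈ H,
      gs i * (t j * h * (t j)⁻¹) * (gs i)⁻¹ ∈ St := by
    intro j i h hh
    have h2 : f ∈ (Fix F H).map (R F (gs i * t j)) := by
      have := (Submodule.mem_iInf _).1 hf (j, i)
      exact (Submodule.mem_iInf _).1 this (mem_univ _)
    obtain ⟨y, hy, rfl⟩ := h2
    have e : gs i * (t j * h * (t j)⁻¹) * (gs i)⁻¹ = (gs i * t j) * h * (gs i * t j)⁻¹ := by group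
    rw [e]
    show R F ((gs i * t j) * h * (gs i * t j)⁻¹) (R F (gs i * t j) y) = R F (gs i * t j) y
    rw [← Module.End.mul_apply, ← RT.R_mul, inv_mul_cancel_right, RT.R_mul, Module.End.mul_apply,
      mem_Fix.1 hy h hh]
  have hall : ∀ x : G, ∀ h ∈ H, x * h * x⁻¹ ∈ St := by
    intro x h hh
    obtain ⟨j, a, ha, rfl⟩ := ht x
    have h0 : t j * h * (t j)⁻¹ ∈ St := by
      have := hmem j none h hh
      simpa [hgs] using this
    have h2 := conj_gen A hA g hg St (t j * h * (t j)⁻¹) h0 (fun i => hmem j (some i) h hh) a ha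
    have e : a * t j * h * (a * t j)⁻¹ = a * (t j * h * (t j)⁻¹) * a⁻¹ := by group
    rw [e]
    exact h2
  have hN : Subgroup.normalClosure (H : Set G) ≤ St := by
    unfold Subgroup.normalClosure
    rw [Subgroup.closure_le]
    intro y hy
    obtain ⟨h, hh, hc⟩ := Group.mem_conjugatesOfSet_iff.1 hy
    obtain ⟨x, rfl⟩ := isConj_iff.1 hc
    exact hall x h hh
  intro x hx
  exact hN hx

/-- **Good left ideals.** -/
theorem good_H (F : Type) [Field F] [Fintype F] (m d s M : ℕ) :
    ∃ δ : ℝ, 0 < δ ∧ ∀ (G : Type) [Group G] [Fintype G] (A H : Subgroup G) [A.Normal]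
      (g : Fin d → G), A = Subgroup.closure (Set.range g) → (∀ a ∈ A, ∀ b ∈ A, a * b = b * a) →
      A.index ≤ m → Nat.card H ≤ s → (Subgroup.normalClosure (H : Set G)).index ≤ M →
      ∃ C : Submodule F (G → F), (∀ c ∈ C, ∀ z : G, (fun x => c (z * x)) ∈ C) ∧
        Fintype.card G ≤ s * finrank F C ∧ ∀ c ∈ C, c ≠ 0 → δ * Fintype.card G < wt c := by
  classical
  obtain ⟨δ, hδ, h⟩ := good_sub F m d 1 ((m + 1) * (d + 1)) M le_rfl
    (Nat.succ_le_of_lt (by positivity))
  refine ⟨δ, hδ, ?_⟩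
  intro G _ _ A H _ g hg hA hAm hH hM
  -- representatives
  have hex : ∃ t : Fin (m + 1) → G, ∀ x : G, ∃ j, ∃ a ∈ A, x = a * t j := by
    have : Fintype (G ⧸ A) := Fintype.ofFinite _
    have hc : Fintype.card (G ⧸ A) ≤ Fintype.card (Fin (m + 1)) := by
      rw [Fintype.card_fin, ← Nat.card_eq_fintype_card]
      have : Nat.card (G ⧸ A) ≤ m := hAm
      omega
    obtain ⟨f⟩ := Function.Embedding.nonempty_of_card_le hc
    have hsurj := Function.invFun_surjective f.injective
    refine ⟨fun j => (Function.invFun f j).out, fun x => ?_⟩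
    obtain ⟨j, hj⟩ := hsurj (x : G ⧸ A)
    refine ⟨j, x * (Function.invFun f j).out⁻¹, ?_, by rw [inv_mul_cancel_right]⟩
    rw [hj]
    have h1 : ((x : G ⧸ A).out : G ⧸ A) = (x : G ⧸ A) := QuotientGroup.out_eq' _
    have h2 := QuotientGroup.eq.1 h1
    have h3 := (inferInstance : A.Normal).conj_mem _ h2 ((x : G ⧸ A).out)
    have e : (x : G ⧸ A).out * ((x : G ⧸ A).out⁻¹ * x) * ((x : G ⧸ A).out)⁻¹ =
      x * ((x : G ⧸ A).out)⁻¹ := by group
    rwa [e] at h3
  obtain ⟨t, ht⟩ := hex
  obtain ⟨C, hC1, hC2, hC3⟩ := h G A g hg hA hAm (Fix F H)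
    (by
      intro y hy z x hx
      have h1 := congrFun (mem_Fix.1 hy x hx)
      funext u
      have h2 := h1 (z * u)
      show y (z * (u * x)) = y (z * u)
      rw [← mul_assoc]
      exact h2)
    (fun V hV => by
      have := fix_bound2 A H hA g hg t ht hM V hV
      rwa [Fintype.card_fin] at this)
  rw [finrank_Fix] at hC2
  let e : (G → F) ≃ₗ[F] (Fin 1 × G → F) := LinearEquiv.funCongrLeft F F (Equiv.uniqueProd G (Fin 1))
  have he : ∀ (f : G → F) (i : Fin 1) (x : G), e f (i, x) = f x := fun f i x => rfl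
  refine ⟨C.map (e.symm : (Fin 1 × G → F) →ₗ[F] (G → F)), ?_, ?_, ?_⟩
  · rintro _ ⟨c, hc, rfl⟩ z
    refine ⟨_, hC1 c hc z, ?_⟩
    rfl
  · rw [LinearEquiv.finrank_map_eq]
    have h1 : H.index ≤ finrank F C := by omega
    have h2 := Subgroup.card_mul_index H
    rw [← Nat.card_eq_fintype_card, ← h2]
    exact Nat.mul_le_mul hH h1
  · rintro _ ⟨c, hc, rfl⟩ hc0
    have hc0' : c ≠ 0 := by
      rintro rfl
      exact hc0 (map_zero _)
    refine lt_of_lt_of_le (hC3 c hc hc0') ?_
    rw [Nat.cast_le]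
    unfold wt
    apply Finset.card_le_card_of_injOn (fun x => x.2)
    · rintro ⟨i, x⟩ hx
      rw [Finset.mem_coe, Finset.mem_filter] at hx ⊢
      have hi : i = 0 := Subsingleton.elim _ _
      subst hi
      exact ⟨mem_univ _, hx.2⟩
    · rintro ⟨i, x⟩ _ ⟨i', x'⟩ _ hxx
      exact Prod.ext (Subsingleton.elim _ _) hxx

/-- the abelianization is small -/
theorem card_ab [Finite G] (H : Subgroup G) {s M : ℕ} (hs : Nat.card H ≤ s)
    (hM : (Subgroup.normalClosure (H : Set G)).index ≤ M) :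
    Nat.card (Abelianization G) ≤ M * s := by
  set K : Subgroup (Abelianization G) := H.map Abelianization.of with hK
  have h1 : Nat.card K ≤ s := by
    refine le_trans ?_ hs
    exact Nat.card_le_card_of_surjective (fun x : H => (⟨Abelianization.of x.1, x.1, x.2, rfl⟩ : K))
      (by
        rintro ⟨_, x, hx, rfl⟩
        exact ⟨⟨x, hx⟩, rfl⟩)
  have hsurj : Function.Surjective (Abelianization.of : G →* Abelianization G) :=
    QuotientGroup.mk'_surjective (commutator G)
  have h2 : K.index ≤ M := by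
    have h3 : (K.comap Abelianization.of).index = K.index :=
      Subgroup.index_comap_of_surjective _ hsurj
    rw [← h3]
    refine le_trans (Subgroup.index_antitone ?_) hM
    apply Subgroup.normalClosure_le_normal
    intro x hx
    exact ⟨x, hx, rfl⟩
  have h3 := Subgroup.card_mul_index K
  rw [← h3, mul_comm M s]
  exact Nat.mul_le_mul h1 h2

/-- **Good left ideals** of finite `p`-groups. -/
theorem good_pH (F : Type) [Field F] [Fintype F] (p : ℕ) [Fact p.Prime] (m s M : ℕ) :
    ∃ δ : ℝ, 0 < δ ∧ ∀ (G : Type) [Group G] [Fintype G] (A H : Subgroup G),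
      IsPGroup p G → (∀ a ∈ A, ∀ b ∈ A, a * b = b * a) → A.index ≤ m → Nat.card H ≤ s →
      (Subgroup.normalClosure (H : Set G)).index ≤ M →
      ∃ C : Submodule F (G → F), (∀ c ∈ C, ∀ z : G, (fun x => c (z * x)) ∈ C) ∧
        Fintype.card G ≤ s * finrank F C ∧ ∀ c ∈ C, c ≠ 0 → δ * Fintype.card G < wt c := by
  obtain ⟨δ, hδ, h⟩ := good_H F m.factorial (m.factorial * (M * s)) s M
  refine ⟨δ, hδ, ?_⟩
  intro G _ _ A H hG hA hAm hH hM
  have hidx : A.normalCore.index ≤ m.factorial := by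
    have h1 : A.normalCore.index ∣ A.index.factorial := by
      rw [Subgroup.normalCore_eq_ker, Subgroup.index_ker, Subgroup.index_eq_card, ← Nat.card_perm]
      exact Subgroup.card_subgroup_dvd_card _
    exact (Nat.le_of_dvd (Nat.factorial_pos _) h1).trans (Nat.factorial_le hAm)
  obtain ⟨g, hg⟩ := sub_gen hG A.normalCore hidx (card_ab H hH hM)
  exact h G A.normalCore H g hg
    (fun a ha b hb => hA a (A.normalCore_le ha) b (A.normalCore_le hb)) hidx hH hM

end Run7.h505.RW
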