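import Mathlib

/-!
Finite `p`-groups of bounded coclass.
-/

set_option autoImplicit false

namespace Run7.h505.RW

/-- the lower central series -/
abbrev lc (G : Type) [Group G] (n : ℕ) : Subgroup G :=
  Subgroup.lowerCentralSeries (⊤ : Subgroup G) n

variable {p : ℕ} [hp : Fact p.Prime] {G : Type} [Group G] [Finite G]

theorem card_lt_p (hG : IsPGroup p G) (K L : Subgroup G) (h : K < L) :
    p * Nat.card K ≤ Nat.card L := by
  obtain ⟨a, ha⟩ := IsPGroup.iff_card.1 (hG.to_subgroup K)
  obtain ⟨b, hb⟩ := IsPGroup.iff_card.1 (hG.to_subgroup L)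
  have h2 : Nat.card K < Nat.card L := by
    by_contra hcon
    push Not at hcon
    exact h.ne (Subgroup.eq_of_le_of_card_ge h.le hcon)
  rw [ha, hb] at h2 ⊢
  have h3 : a < b := (Nat.pow_lt_pow_iff_right hp.out.one_lt).1 h2
  rw [← pow_succ']
  exact Nat.pow_le_pow_right hp.out.pos h3

theorem lc_lt [Group.IsNilpotent G] {i : ℕ} (hi : i < Group.nilpotencyClass G) :
    lc G (i + 1) < lc G i := by
  refine lt_of_le_of_ne (Subgroup.lowerCentralSeries_antitone _ (Nat.le_succ i)) fun h => ?_
  have h1 : ∀ j, lc G (i + j) = lc G i := by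
    intro j
    induction j with
    | zero => rfl
    | succ j ih =>
      show ⁅lc G (i + j), (⊤ : Subgroup G)⁆ = lc G i
      rw [ih]
      exact h
  have h2 : lc G i = ⊥ := by
    rw [← h1 (Group.nilpotencyClass G - i)]
    have e : i + (Group.nilpotencyClass G - i) = Group.nilpotencyClass G := by omega
    rw [e]
    exact Subgroup.lowerCentralSeries_nilpotencyClass
  have h3 := Subgroup.lowerCentralSeries_eq_bot_iff_nilpotencyClass_le.1 h2
  omega

theorem card_lc_ge (hG : IsPGroup p G) [Group.IsNilpotent G] (k : ℕ)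
    (hk : k ≤ Group.nilpotencyClass G) : p ^ k ≤ Nat.card (lc G (Group.nilpotencyClass G - k)) := by
  induction k with
  | zero => rw [pow_zero]; exact Nat.card_pos
  | succ k ih =>
    have h1 := ih (by omega)
    have h2 := lc_lt (G := G) (i := Group.nilpotencyClass G - (k + 1)) (by omega)
    have e : Group.nilpotencyClass G - (k + 1) + 1 = Group.nilpotencyClass G - k := by omega
    rw [e] at h2
    have h3 := card_lt_p hG _ _ h2
    rw [pow_succ']
    exact (Nat.mul_le_mul_left _ h1).trans h3

theorem card_lc_ge' (hG : IsPGroup p G) [Group.IsNilpotent G] (i : ℕ) :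
    p ^ (Group.nilpotencyClass G - i) ≤ Nat.card (lc G i) := by
  rcases le_total i (Group.nilpotencyClass G) with h | h
  · have h1 := card_lc_ge hG (Group.nilpotencyClass G - i) (by omega)
    have e : Group.nilpotencyClass G - (Group.nilpotencyClass G - i) = i := by omega
    rwa [e] at h1
  · rw [Nat.sub_eq_zero_of_le h, pow_zero]
    exact Nat.card_pos

theorem pow_class_le (hG : IsPGroup p G) [Group.IsNilpotent G] :
    p ^ Group.nilpotencyClass G ≤ Nat.card G := by
  have h1 := card_lc_ge' hG 0
  rw [Nat.sub_zero] at h1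
  exact h1.trans (Subgroup.card_le_card_group _)

theorem lc_le (X : Subgroup G) [X.Normal] [Group.IsNilpotent G] :
    lc G (Group.nilpotencyClass (G ⧸ X)) ≤ X := by
  have h1 : (lc G (Group.nilpotencyClass (G ⧸ X))).map (QuotientGroup.mk' X) = ⊥ := by
    rw [Subgroup.map_lowerCentralSeries,
      Subgroup.map_top_of_surjective _ (QuotientGroup.mk'_surjective X)]
    exact Subgroup.lowerCentralSeries_nilpotencyClass
  rw [Subgroup.map_eq_bot_iff, QuotientGroup.ker_mk'] at h1
  exact h1

/-- coclass at most `r` -/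
def Cc (p r : ℕ) (G : Type) [Group G] : Prop := Nat.card G ≤ p ^ (Group.nilpotencyClass G + r)

theorem card_mul_quot (X : Subgroup G) : Nat.card (G ⧸ X) * Nat.card X = Nat.card G :=
  (Subgroup.card_eq_card_quotient_mul_card_subgroup X).symm

theorem normal_lc (hG : IsPGroup p G) [Group.IsNilpotent G] {r : ℕ} (hr : Cc p r G)
    (X : Subgroup G) [X.Normal] : ∃ e, lc G e ≤ X ∧ Nat.card X ≤ p ^ r * Nat.card (lc G e) := by
  refine ⟨Group.nilpotencyClass (G ⧸ X), lc_le X, ?_⟩
  set e := Group.nilpotencyClass (G ⧸ X) with he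
  have h1 : p ^ e ≤ Nat.card (G ⧸ X) := pow_class_le (hG.to_quotient X)
  have h2 := card_lc_ge' hG e
  have h3 : e ≤ Group.nilpotencyClass G := nilpotencyClass_quotient_le X
  have h4 := card_mul_quot X
  have h5 : p ^ e * Nat.card X ≤ p ^ e * (p ^ r * p ^ (Group.nilpotencyClass G - e)) := by
    calc p ^ e * Nat.card X ≤ Nat.card (G ⧸ X) * Nat.card X := Nat.mul_le_mul_right _ h1
      _ = Nat.card G := h4
      _ ≤ p ^ (Group.nilpotencyClass G + r) := hr
      _ = p ^ e * (p ^ r * p ^ (Group.nilpotencyClass G - e)) := by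
          rw [← pow_add, ← pow_add]
          congr 1
          omega
  have h6 := Nat.le_of_mul_le_mul_left h5 (pow_pos hp.out.pos e)
  exact h6.trans (Nat.mul_le_mul_left _ h2)

theorem min_card (hG : IsPGroup p G) [Group.IsNilpotent G] {r : ℕ} (hr : Cc p r G)
    (X Y : Subgroup G) [X.Normal] [Y.Normal] :
    min (Nat.card X) (Nat.card Y) ≤ p ^ r * Nat.card (X ⊓ Y : Subgroup G) := by
  obtain ⟨e, he1, he2⟩ := normal_lc hG hr X
  obtain ⟨f, hf1, hf2⟩ := normal_lc hG hr Y
  have hanti := Subgroup.lowerCentralSeries_antitone (⊤ : Subgroup G)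
  rcases le_total e f with h | h
  · refine (min_le_right _ _).trans (hf2.trans (Nat.mul_le_mul_left _ ?_))
    exact Subgroup.card_le_of_le (le_inf ((hanti h).trans he1) hf1)
  · refine (min_le_left _ _).trans (he2.trans (Nat.mul_le_mul_left _ ?_))
    exact Subgroup.card_le_of_le (le_inf he1 ((hanti h).trans hf1))

theorem Cc_quot (hG : IsPGroup p G) [Group.IsNilpotent G] {r : ℕ} (hr : Cc p r G)
    (X : Subgroup G) [X.Normal] : Cc p r (G ⧸ X) := by
  unfold Cc
  set e := Group.nilpotencyClass (G ⧸ X) with he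
  have h1 : p ^ (Group.nilpotencyClass G - e) ≤ Nat.card X :=
    (card_lc_ge' hG e).trans (Subgroup.card_le_of_le (lc_le X))
  have h3 : e ≤ Group.nilpotencyClass G := nilpotencyClass_quotient_le X
  have h4 := card_mul_quot X
  have h5 : Nat.card (G ⧸ X) * p ^ (Group.nilpotencyClass G - e) ≤
      p ^ (e + r) * p ^ (Group.nilpotencyClass G - e) := by
    calc Nat.card (G ⧸ X) * p ^ (Group.nilpotencyClass G - e) ≤ Nat.card (G ⧸ X) * Nat.card X :=
          Nat.mul_le_mul_left _ h1
      _ = Nat.card G := h4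
      _ ≤ p ^ (Group.nilpotencyClass G + r) := hr
      _ = p ^ (e + r) * p ^ (Group.nilpotencyClass G - e) := by
          rw [← pow_add]
          congr 1
          omega
  exact Nat.le_of_mul_le_mul_right h5 (pow_pos hp.out.pos _)

theorem Cc_ab (hG : IsPGroup p G) [Group.IsNilpotent G] {r : ℕ} (hr : Cc p r G) :
    Nat.card (Abelianization G) ≤ p ^ (r + 1) := by
  have h1 := card_lc_ge' hG 1
  have h2 : lc G 1 = commutator G := Subgroup.top_lowerCentralSeries_one
  rw [h2] at h1
  have h3 : Nat.card (Abelianization G) * Nat.card (commutator G) = Nat.card G :=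
    card_mul_quot (commutator G)
  have h5 : Nat.card (Abelianization G) * p ^ (Group.nilpotencyClass G - 1) ≤
      p ^ (r + 1) * p ^ (Group.nilpotencyClass G - 1) := by
    calc Nat.card (Abelianization G) * p ^ (Group.nilpotencyClass G - 1) ≤
          Nat.card (Abelianization G) * Nat.card (commutator G) := Nat.mul_le_mul_left _ h1
      _ = Nat.card G := h3
      _ ≤ p ^ (Group.nilpotencyClass G + r) := hr
      _ ≤ p ^ ((r + 1) + (Group.nilpotencyClass G - 1)) := by
          apply Nat.pow_le_pow_right hp.out.pos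
          omega
      _ = p ^ (r + 1) * p ^ (Group.nilpotencyClass G - 1) := by rw [pow_add]
  exact Nat.le_of_mul_le_mul_right h5 (pow_pos hp.out.pos _)

end Run7.h505.RW
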