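import Pool.Agent.Run7.h505.RW.A
import Pool.Agent.Run7.h505.RW.B

/-!
Finite `p`-groups of bounded coclass with a commutative normal subgroup of bounded index: some
element commutes with few elements of this subgroup.
-/

set_option autoImplicit false

namespace Run7.h505.RW

open Run7.h505.RT Run7.h505.RV
open scoped commutatorElement

section

variable {G : Type} [Group G]

/-- the commutators with `t` -/
def cm (A : Subgroup G) [A.Normal] (hA : ∀ a ∈ A, ∀ b ∈ A, a * b = b * a) (t : G) : A →* A where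
  toFun a := ⟨⁅a.1, t⁆, by
    have h1 := (inferInstance : A.Normal).conj_mem _ (A.inv_mem a.2) t
    have h2 := A.mul_mem a.2 h1
    have e : ⁅a.1, t⁆ = a.1 * (t * a.1⁻¹ * t⁻¹) := by rw [commutatorElement_def]; group
    rwa [e]⟩
  map_one' := by
    apply Subtype.ext
    show ⁅(1 : G), t⁆ = 1
    rw [commutatorElement_def]
    group
  map_mul' a b := by
    apply Subtype.ext
    show ⁅a.1 * b.1, t⁆ = ⁅a.1, t⁆ * ⁅b.1, t⁆
    have h1 := (inferInstance : A.Normal).conj_mem _ (A.inv_mem a.2) t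
    have h2 := (inferInstance : A.Normal).conj_mem _ (A.inv_mem b.2) t
    have h3 := hA _ (A.mul_mem b.2 h2) _ h1
    calc ⁅a.1 * b.1, t⁆ = a.1 * ((b.1 * (t * b.1⁻¹ * t⁻¹)) * (t * a.1⁻¹ * t⁻¹)) := by
          rw [commutatorElement_def]; group
      _ = a.1 * ((t * a.1⁻¹ * t⁻¹) * (b.1 * (t * b.1⁻¹ * t⁻¹))) := by rw [h3]
      _ = _ := by rw [commutatorElement_def, commutatorElement_def]; group

/-- the centralizer of `t` in `A` -/
def Xs (A : Subgroup G) [A.Normal] (hA : ∀ a ∈ A, ∀ b ∈ A, a * b = b * a) (t : G) : Subgroup G :=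
  (cm A hA t).ker.map A.subtype

/-- the commutators with `t` -/
def Ys (A : Subgroup G) [A.Normal] (hA : ∀ a ∈ A, ∀ b ∈ A, a * b = b * a) (t : G) : Subgroup G :=
  (cm A hA t).range.map A.subtype

theorem mem_Xs {A : Subgroup G} [A.Normal] {hA : ∀ a ∈ A, ∀ b ∈ A, a * b = b * a} {t x : G} :
    x ∈ Xs A hA t ↔ x ∈ A ∧ Commute x t := by
  constructor
  · rintro ⟨a, ha, rfl⟩
    refine ⟨a.2, ?_⟩
    have h1 : cm A hA t a = 1 := ha
    have h2 : ⁅a.1, t⁆ = 1 := congrArg Subtype.val h1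
    exact commutatorElement_eq_one_iff_commute.1 h2
  · rintro ⟨hx, hc⟩
    refine ⟨⟨x, hx⟩, ?_, rfl⟩
    show cm A hA t ⟨x, hx⟩ = 1
    apply Subtype.ext
    exact commutatorElement_eq_one_iff_commute.2 hc

theorem mem_Ys {A : Subgroup G} [A.Normal] {hA : ∀ a ∈ A, ∀ b ∈ A, a * b = b * a} {t x : G} :
    x ∈ Ys A hA t ↔ ∃ a ∈ A, ⁅a, t⁆ = x := by
  constructor
  · rintro ⟨_, ⟨a, rfl⟩, rfl⟩
    exact ⟨a.1, a.2, rfl⟩
  · rintro ⟨a, ha, rfl⟩
    exact ⟨_, ⟨⟨a, ha⟩, rfl⟩, rfl⟩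

theorem Ys_le (A : Subgroup G) [A.Normal] (hA : ∀ a ∈ A, ∀ b ∈ A, a * b = b * a) (t : G) :
    Ys A hA t ≤ A := by
  rintro _ ⟨y, _, rfl⟩
  exact y.2

theorem Xs_normal (A : Subgroup G) [A.Normal] (hA : ∀ a ∈ A, ∀ b ∈ A, a * b = b * a) (t : G)
    (ht : ∀ g : G, g * t * g⁻¹ * t⁻¹ ∈ A) : (Xs A hA t).Normal := by
  constructor
  intro x hx g
  obtain ⟨hxA, hc⟩ := mem_Xs.1 hx
  have hgx : g * x * g⁻¹ ∈ A := (inferInstance : A.Normal).conj_mem _ hxA g
  refine mem_Xs.2 ⟨hgx, ?_⟩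
  set b := g * t * g⁻¹ * t⁻¹ with hb
  have h1 : b⁻¹ * (g * t * g⁻¹) = t := by rw [hb]; group
  have h2 : Commute (g * x * g⁻¹) (g * t * g⁻¹) := by
    show g * x * g⁻¹ * (g * t * g⁻¹) = g * t * g⁻¹ * (g * x * g⁻¹)
    have e1 : g * x * g⁻¹ * (g * t * g⁻¹) = g * (x * t) * g⁻¹ := by group
    have e2 : g * t * g⁻¹ * (g * x * g⁻¹) = g * (t * x) * g⁻¹ := by group
    rw [e1, e2, hc.eq]
  have h3 : Commute (g * x * g⁻¹) b⁻¹ := hA _ hgx _ (A.inv_mem (ht g))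
  have h4 := h3.mul_right h2
  rwa [h1] at h4

theorem Ys_normal (A : Subgroup G) [A.Normal] (hA : ∀ a ∈ A, ∀ b ∈ A, a * b = b * a) (t : G)
    (ht : ∀ g : G, g * t * g⁻¹ * t⁻¹ ∈ A) : (Ys A hA t).Normal := by
  constructor
  intro x hx g
  obtain ⟨a, ha, rfl⟩ := mem_Ys.1 hx
  set a' := g * a * g⁻¹ with ha'
  have ha'A : a' ∈ A := (inferInstance : A.Normal).conj_mem _ ha g
  refine mem_Ys.2 ⟨a', ha'A, ?_⟩
  set b := g * t * g⁻¹ * t⁻¹ with hb
  have hbA : b ∈ A := ht g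
  have hcA : ⁅a', t⁆ ∈ A := Ys_le A hA t (mem_Ys.2 ⟨a', ha'A, rfl⟩)
  have h1 : g * t * g⁻¹ = b * t := by rw [hb]; group
  have e1 : g * ⁅a, t⁆ * g⁻¹ = ⁅a', b * t⁆ := by
    rw [← h1, ha', commutatorElement_def, commutatorElement_def]
    group
  have e2 : ⁅a', b * t⁆ = (a' * b) * t * a'⁻¹ * t⁻¹ * b⁻¹ := by
    rw [commutatorElement_def]; group
  have e3 : (a' * b) * t * a'⁻¹ * t⁻¹ * b⁻¹ = b * ⁅a', t⁆ * b⁻¹ := by
    rw [hA a' ha'A b hbA, commutatorElement_def]; group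
  rw [e1, e2, e3, hA b hbA _ hcA]
  group

theorem pow_one (A : Subgroup G) [A.Normal] (hA : ∀ a ∈ A, ∀ b ∈ A, a * b = b * a) (t : G)
    {q : ℕ} (hq : t ^ q ∈ A) {y : G} (hX : y ∈ Xs A hA t) (hY : y ∈ Ys A hA t) : y ^ q = 1 := by
  obtain ⟨hyA, hc⟩ := mem_Xs.1 hX
  obtain ⟨b, hb, hby⟩ := mem_Ys.1 hY
  have h1 : t * b * t⁻¹ = y⁻¹ * b := by
    have h2 : t * b * t⁻¹ ∈ A := (inferInstance : A.Normal).conj_mem _ hb t
    have h3 : y * (t * b * t⁻¹) = b := by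
      rw [← hby, commutatorElement_def]
      group
    calc t * b * t⁻¹ = y⁻¹ * (y * (t * b * t⁻¹)) := by group
      _ = y⁻¹ * b := by rw [h3]
  have h2 : ∀ n : ℕ, t ^ n * b * (t ^ n)⁻¹ = (y ^ n)⁻¹ * b := by
    intro n
    induction n with
    | zero => simp
    | succ n ih =>
      have h3 : t * (y ^ n)⁻¹ * t⁻¹ = (y ^ n)⁻¹ := by
        have h4 : Commute t (y ^ n)⁻¹ := (hc.symm.pow_right n).inv_right
        rw [h4.eq, mul_inv_cancel_right]
      calc t ^ (n + 1) * b * (t ^ (n + 1))⁻¹ = t * (t ^ n * b * (t ^ n)⁻¹) * t⁻¹ := by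
            rw [pow_succ']; group
        _ = (t * (y ^ n)⁻¹ * t⁻¹) * (t * b * t⁻¹) := by rw [ih]; group
        _ = (y ^ (n + 1))⁻¹ * b := by rw [h3, h1, pow_succ']; group
  have h3 := h2 q
  have h4 : t ^ q * b * (t ^ q)⁻¹ = b := by rw [hA _ hq _ hb, mul_inv_cancel_right]
  rw [h4] at h3
  have h5 : (y ^ q)⁻¹ = 1 := by
    have := mul_right_cancel (a := (1 : G)) (b := b) (c := (y ^ q)⁻¹) (by rw [one_mul]; exact h3)
    exact this.symm
  exact inv_eq_one.1 h5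

end

/-- the elements of bounded order -/
theorem card_tors {B : Type} [CommGroup B] [Finite B] {d : ℕ} (x : Fin d → B)
    (hx : ∀ b : B, ∃ α : Fin d → ℕ, b = gp x α) {q : ℕ} (hq : 0 < q) :
    Nat.card (powMonoidHom q : B →* B).ker ≤ q ^ d := by
  set f : B →* B := powMonoidHom q with hf
  have h1 : Nat.card f.ker = f.range.index := by
    have h2 := Subgroup.card_mul_index f.ker
    have h3 := Subgroup.card_mul_index f.range
    rw [Subgroup.index_ker] at h2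
    rw [← h2, mul_comm] at h3
    have h4 : 0 < Nat.card f.range := Nat.card_pos
    exact (Nat.eq_of_mul_eq_mul_right h4 h3).symm
  rw [h1]
  have h2 : Nat.card (Fin d → Fin q) = q ^ d := by
    rw [Nat.card_eq_fintype_card, Fintype.card_fun, Fintype.card_fin, Fintype.card_fin]
  rw [← h2]
  apply Nat.card_le_card_of_surjective
    (fun k : Fin d → Fin q => ((gp x fun i => (k i : ℕ) : B) : B ⧸ f.range))
  intro c
  obtain ⟨b, rfl⟩ := QuotientGroup.mk_surjective c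
  obtain ⟨α, rfl⟩ := hx b
  refine ⟨fun i => ⟨α i % q, Nat.mod_lt _ hq⟩, ?_⟩
  apply QuotientGroup.eq.2
  refine ⟨gp x fun i => α i / q, ?_⟩
  show (gp x fun i => α i / q) ^ q = _
  have h3 : gp x α = gp x (fun i => α i % q) * (gp x fun i => α i / q) ^ q := by
    unfold gp
    rw [← Finset.prod_pow, ← Finset.prod_mul_distrib]
    refine Finset.prod_congr rfl fun i _ => ?_
    rw [← pow_mul, ← pow_add]
    congr 1
    rw [mul_comm (α i / q) q]
    exact (Nat.mod_add_div _ _).symm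
  rw [h3]
  show _ = (gp x fun i => α i % q)⁻¹ * _
  rw [inv_mul_cancel_left]

end Run7.h505.RW
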