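import Pool.Agent.Run7.h505.RW.C

/-!
Finite `p`-groups of bounded coclass with a commutative normal subgroup of bounded index: some
element commutes with few elements of this subgroup.
-/

set_option autoImplicit false

namespace Run7.h505.RW

open Run7.h505.RT Run7.h505.RV
open scoped commutatorElement

variable {p : ℕ} [hp : Fact p.Prime]

/-- the intersection -/
theorem card_XY {G : Type} [Group G] [Finite G] (hG : IsPGroup p G) {r j : ℕ}
    [Group.IsNilpotent G] (hr : Cc p r G) (A : Subgroup G) [A.Normal]
    (hA : ∀ a ∈ A, ∀ b ∈ A, a * b = b * a) (hj : A.index ≤ j) (t : G) {q : ℕ} (hq0 : 0 < q)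
    (hqj : q ≤ j) (hq : t ^ q ∈ A) :
    Nat.card (Xs A hA t ⊓ Ys A hA t : Subgroup G) ≤ j ^ (j * p ^ (r + 1)) := by
  obtain ⟨g, hg⟩ := sub_gen hG A hj (Cc_ab hG hr)
  let _ := cgA A hA
  have hgA : ∀ i, g i ∈ A := fun i => by
    rw [hg]
    exact Subgroup.subset_closure ⟨i, rfl⟩
  set x : Fin (j * p ^ (r + 1)) → A := fun i => ⟨g i, hgA i⟩ with hx
  have hx1 : Subgroup.closure (Set.range x) = ⊤ := by
    have h1 : (Subgroup.closure (Set.range x)).map A.subtype = A := by
      rw [MonoidHom.map_closure, ← Set.range_comp]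
      exact hg.symm
    apply Subgroup.map_injective A.subtype_injective
    rw [h1, ← MonoidHom.range_eq_map, Subgroup.range_subtype]
  have h1 := card_tors x (gp_surj x hx1) hq0
  have h2 : Nat.card (Xs A hA t ⊓ Ys A hA t : Subgroup G) ≤
      Nat.card (powMonoidHom q : A →* A).ker := by
    apply Nat.card_le_card_of_injective
      (fun y : (Xs A hA t ⊓ Ys A hA t : Subgroup G) => (⟨⟨y.1, (mem_Xs.1 y.2.1).1⟩, by
        show (⟨y.1, (mem_Xs.1 y.2.1).1⟩ : A) ^ q = 1
        apply Subtype.ext
        exact pow_one A hA t hq y.2.1 y.2.2⟩ : (powMonoidHom q : A →* A).ker))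
    intro y y' h
    have h3 := congrArg Subtype.val (congrArg Subtype.val h)
    exact Subtype.ext h3
  exact h2.trans (h1.trans (Nat.pow_le_pow_left hqj _))

theorem exists_t (p : ℕ) [hp : Fact p.Prime] (r j : ℕ) : ∃ K : ℕ, ∀ (G : Type) [Group G]
    [Finite G] (A : Subgroup G) [A.Normal], IsPGroup p G → (∀ a ∈ A, ∀ b ∈ A, a * b = b * a) →
    A.index ≤ j → Cc p r G → ∃ t : G, Nat.card (A ⊓ Subgroup.centralizer {t} : Subgroup G) ≤ K := by
  induction j with
  | zero =>
    refine ⟨0, ?_⟩
    intro G _ _ A _ _ _ h0 _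
    have h1 : A.index ≠ 0 := Subgroup.index_ne_zero_of_finite
    omega
  | succ j ih =>
    obtain ⟨K, hK⟩ := ih
    set K' := p ^ r * (j + 1) ^ ((j + 1) * p ^ (r + 1)) with hK'
    refine ⟨p ^ (1 + r) + K' * (K + 1), ?_⟩
    intro G _ _ A _ hG hA hj hr
    have hnil : Group.IsNilpotent G := hG.isNilpotent
    by_cases hAt : A = ⊤
    · -- commutative
      refine ⟨1, ?_⟩
      have h1 : lc G 1 = ⊥ := by
        show ⁅(⊤ : Subgroup G), (⊤ : Subgroup G)⁆ = ⊥
        rw [eq_bot_iff, Subgroup.commutator_le]
        intro a _ b _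
        rw [Subgroup.mem_bot]
        exact commutatorElement_eq_one_iff_commute.2
          (hA a (hAt ▸ Subgroup.mem_top a) b (hAt ▸ Subgroup.mem_top b))
      have h2 := Subgroup.lowerCentralSeries_eq_bot_iff_nilpotencyClass_le.1 h1
      have h3 : Nat.card G ≤ p ^ (1 + r) :=
        le_trans hr (Nat.pow_le_pow_right hp.out.pos (by omega))
      exact (Subgroup.card_le_card_group _).trans (h3.trans (Nat.le_add_right _ _))
    · -- an element which is central modulo `A`
      have hQ : IsPGroup p (G ⧸ A) := hG.to_quotient A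
      have hnt : Nontrivial (G ⧸ A) := QuotientGroup.nontrivial_iff.2 hAt
      have hcn : Nontrivial (Subgroup.center (G ⧸ A)) := hQ.center_nontrivial
      obtain ⟨⟨τ, hτc⟩, hτ1⟩ := exists_ne (1 : Subgroup.center (G ⧸ A))
      have hτ : τ ≠ 1 := fun h => hτ1 (Subtype.ext h)
      obtain ⟨t, rfl⟩ := QuotientGroup.mk_surjective τ
      have htA : t ∉ A := fun h => hτ ((QuotientGroup.eq_one_iff t).2 h)
      have hcomm : ∀ g : G, g * t * g⁻¹ * t⁻¹ ∈ A := by
        intro g
        rw [← QuotientGroup.eq_one_iff]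
        have h1 := Subgroup.mem_center_iff.1 hτc (g : G ⧸ A)
        show (g : G ⧸ A) * (t : G ⧸ A) * (g : G ⧸ A)⁻¹ * (t : G ⧸ A)⁻¹ = 1
        rw [h1, mul_inv_cancel_right, mul_inv_cancel]
      set q := orderOf (t : G ⧸ A) with hq
      have hq0 : 0 < q := orderOf_pos _
      have hqj : q ≤ j + 1 := by
        have : q ≤ Nat.card (G ⧸ A) := orderOf_le_card
        exact this.trans hj
      have hqA : t ^ q ∈ A := by
        rw [← QuotientGroup.eq_one_iff]
        exact pow_orderOf_eq_one (t : G ⧸ A)
      have hXn := Xs_normal A hA t hcomm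
      have hYn := Ys_normal A hA t hcomm
      have h1 := min_card hG hr (Xs A hA t) (Ys A hA t)
      have h2 := card_XY hG hr A hA hj t hq0 hqj hqA
      have h3 : min (Nat.card (Xs A hA t)) (Nat.card (Ys A hA t)) ≤ K' :=
        h1.trans (Nat.mul_le_mul_left _ h2)
      rcases min_le_iff.1 h3 with h4 | h4
      · refine ⟨t, ?_⟩
        have h5 : (A ⊓ Subgroup.centralizer {t} : Subgroup G) ≤ Xs A hA t := by
          rintro x ⟨hxA, hxc⟩
          refine mem_Xs.2 ⟨hxA, ?_⟩
          exact (Subgroup.mem_centralizer_singleton_iff.1 hxc)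
        refine (Subgroup.card_le_of_le h5).trans (h4.trans ?_)
        calc K' = K' * 1 := (mul_one _).symm
          _ ≤ K' * (K + 1) := Nat.mul_le_mul_left _ (by omega)
          _ ≤ _ := Nat.le_add_left _ _
      · -- the quotient by the commutators
        set Y := Ys A hA t with hY
        have hYA : Y ≤ A := Ys_le A hA t
        set E : Subgroup G := (Subgroup.zpowers (t : G ⧸ A)).comap (QuotientGroup.mk' A) with hE
        have hzn : (Subgroup.zpowers (t : G ⧸ A)).Normal := by
          constructor
          rintro _ ⟨k, rfl⟩ g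
          refine ⟨k, ?_⟩
          have h5 : Commute g ((t : G ⧸ A) ^ k) :=
            (show Commute g (t : G ⧸ A) from Subgroup.mem_center_iff.1 hτc g).zpow_right k
          show (t : G ⧸ A) ^ k = g * (t : G ⧸ A) ^ k * g⁻¹
          rw [h5.eq, mul_inv_cancel_right]
        have hEn : E.Normal := hzn.comap _
        have hAE : A ≤ E := by
          intro a ha
          show (QuotientGroup.mk' A) a ∈ Subgroup.zpowers (t : G ⧸ A)
          have : (QuotientGroup.mk' A) a = 1 := (QuotientGroup.eq_one_iff a).2 ha
          rw [this]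
          exact Subgroup.one_mem _
        have htE : t ∈ E := Subgroup.mem_zpowers (t : G ⧸ A)
        have hYE : Y ≤ E := hYA.trans hAE
        have hidx : E.index < A.index := by
          have e1 := E.card_mul_index
          have e2 := A.card_mul_index
          have e3 : Nat.card A < Nat.card E := by
            by_contra hcon
            push Not at hcon
            have := Subgroup.eq_of_le_of_card_ge hAE hcon
            exact htA (this ▸ htE)
          have e4 : 0 < E.index := Nat.pos_of_ne_zero Subgroup.index_ne_zero_of_finite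
          by_contra hcon
          push Not at hcon
          have e5 : Nat.card A * A.index < Nat.card E * E.index :=
            Nat.mul_lt_mul_of_lt_of_le e3 hcon e4
          omega
        set Eb : Subgroup (G ⧸ Y) := E.map (QuotientGroup.mk' Y) with hEb
        have hEbn : Eb.Normal := hEn.map _ (QuotientGroup.mk'_surjective Y)
        have hEbi : Eb.index ≤ j := by
          have h5 : Eb.index = E.index := Subgroup.index_map_eq _ (QuotientGroup.mk'_surjective Y)
            (by rw [QuotientGroup.ker_mk']; exact hYE)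
          omega
        -- commutative
        have hat : ∀ a ∈ A, Commute (a : G ⧸ Y) (t : G ⧸ Y) := by
          intro a ha
          apply commutatorElement_eq_one_iff_commute.1
          have h5 : (⁅a, t⁆ : G) ∈ Y := mem_Ys.2 ⟨a, ha, rfl⟩
          exact (QuotientGroup.eq_one_iff _).2 h5
        have hab : ∀ a ∈ A, ∀ b ∈ A, Commute (a : G ⧸ Y) (b : G ⧸ Y) := by
          intro a ha b hb
          show ((a * b : G) : G ⧸ Y) = ((b * a : G) : G ⧸ Y)
          rw [hA a ha b hb]
        have hrep : ∀ e ∈ E, ∃ a ∈ A, ∃ k : ℤ, e = a * t ^ k := by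
          intro e he
          obtain ⟨k, hk⟩ : ∃ k : ℤ, (t : G ⧸ A) ^ k = (e : G ⧸ A) := he
          refine ⟨e * (t ^ k)⁻¹, ?_, k, by rw [inv_mul_cancel_right]⟩
          rw [← QuotientGroup.eq_one_iff]
          show (e : G ⧸ A) * ((t : G ⧸ A) ^ k)⁻¹ = 1
          rw [hk, mul_inv_cancel]
        have hEbc : ∀ x ∈ Eb, ∀ y ∈ Eb, x * y = y * x := by
          rintro _ ⟨e, he, rfl⟩ _ ⟨f, hf, rfl⟩
          obtain ⟨a, ha, k, rfl⟩ := hrep e he
          obtain ⟨b, hb, l, rfl⟩ := hrep f hf
          have c1 : Commute ((a : G ⧸ Y) * (t : G ⧸ Y) ^ k) ((b : G ⧸ Y) * (t : G ⧸ Y) ^ l) := by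
            apply Commute.mul_left
            · exact (hab a ha b hb).mul_right ((hat a ha).zpow_right l)
            · exact ((hat b hb).symm.zpow_left k).mul_right
                ((Commute.refl (t : G ⧸ Y)).zpow_zpow k l)
          exact c1
        obtain ⟨tb, htb⟩ := hK (G ⧸ Y) Eb (hG.to_quotient Y) hEbc hEbi (Cc_quot hG hr Y)
        obtain ⟨t', rfl⟩ := QuotientGroup.mk_surjective tb
        refine ⟨t', ?_⟩
        set X' : Subgroup G := A ⊓ Subgroup.centralizer {t'} with hX'
        let f : X' →* G ⧸ Y := (QuotientGroup.mk' Y).comp X'.subtype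
        have e1 : Nat.card f.ker * Nat.card f.range = Nat.card X' := by
          have := Subgroup.card_mul_index f.ker
          rwa [Subgroup.index_ker] at this
        have e2 : Nat.card f.ker ≤ Nat.card Y := by
          apply Nat.card_le_card_of_injective
            (fun y : f.ker => (⟨y.1.1, by
              have h5 : (QuotientGroup.mk' Y) y.1.1 = 1 := y.2
              exact (QuotientGroup.eq_one_iff _).1 h5⟩ : Y))
          intro y y' h
          have h6 := congrArg Subtype.val h
          exact Subtype.ext (Subtype.ext h6)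
        have e3 : Nat.card f.range ≤ K := by
          refine le_trans (Subgroup.card_le_of_le ?_) htb
          rintro _ ⟨⟨x, hxA, hxc⟩, rfl⟩
          refine ⟨⟨x, hAE hxA, rfl⟩, ?_⟩
          apply Subgroup.mem_centralizer_singleton_iff.2
          have h5 : x * t' = t' * x := Subgroup.mem_centralizer_singleton_iff.1 hxc
          show (x : G ⧸ Y) * (t' : G ⧸ Y) = (t' : G ⧸ Y) * (x : G ⧸ Y)
          show ((x * t' : G) : G ⧸ Y) = ((t' * x : G) : G ⧸ Y)
          rw [h5]
        rw [← e1]
        calc Nat.card f.ker * Nat.card f.range ≤ K' * K := Nat.mul_le_mul (e2.trans h4) e3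
          _ ≤ K' * (K + 1) := Nat.mul_le_mul_left _ (by omega)
          _ ≤ _ := Nat.le_add_left _ _

end Run7.h505.RW
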