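import Pool.Agent.Run7.h505.RW.D
import Pool.Agent.Run7.h505.RV.P

/-!
Good left ideals for finite `p`-groups with a commutative subgroup of bounded index and bounded
coclass.
-/

set_option autoImplicit false

namespace Run7.h505.RW

open Module Run7.h505.RT Run7.h505.RV
open scoped commutatorElement

theorem card_XY_mul {G : Type} [Group G] [Finite G] (A : Subgroup G) [A.Normal]
    (hA : ∀ a ∈ A, ∀ b ∈ A, a * b = b * a) (t : G) :
    Nat.card (Xs A hA t) * Nat.card (Ys A hA t) = Nat.card A := by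
  have h1 := Subgroup.card_mul_index (cm A hA t).ker
  rw [Subgroup.index_ker] at h1
  have h2 : Nat.card (Xs A hA t) = Nat.card (cm A hA t).ker :=
    Nat.card_congr ((cm A hA t).ker.equivMapOfInjective _ A.subtype_injective).symm.toEquiv
  have h3 : Nat.card (Ys A hA t) = Nat.card (cm A hA t).range :=
    Nat.card_congr ((cm A hA t).range.equivMapOfInjective _ A.subtype_injective).symm.toEquiv
  rw [h2, h3]
  exact h1

/-- an element that commutes with few elements of `A` -/
theorem zpowers_t {G : Type} [Group G] [Finite G] (A : Subgroup G) [A.Normal]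
    (hA : ∀ a ∈ A, ∀ b ∈ A, a * b = b * a) {j K : ℕ} (hj : A.index ≤ j) (t : G)
    (ht : Nat.card (A ⊓ Subgroup.centralizer {t} : Subgroup G) ≤ K) :
    Nat.card (Subgroup.zpowers t) ≤ j * K ∧
      (Subgroup.normalClosure ((Subgroup.zpowers t : Subgroup G) : Set G)).index ≤ j * K := by
  constructor
  · rw [Nat.card_zpowers]
    have h1 : t ^ A.index ∈ A := Subgroup.pow_index_mem A t
    have h2 : t ^ A.index ∈ (A ⊓ Subgroup.centralizer {t} : Subgroup G) :=
      ⟨h1, Subgroup.mem_centralizer_singleton_iff.2 (Commute.pow_left (Commute.refl t) _)⟩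
    have h3 : orderOf (t ^ A.index) ≤ K := by
      refine le_trans ?_ ht
      have h4 : orderOf (⟨_, h2⟩ : (A ⊓ Subgroup.centralizer {t} : Subgroup G)) =
        orderOf (t ^ A.index) := by rw [← Subgroup.orderOf_coe]
      rw [← h4]
      exact orderOf_le_card
    have h5 : t ^ (A.index * orderOf (t ^ A.index)) = 1 := by
      rw [pow_mul, pow_orderOf_eq_one]
    have h6 : 0 < A.index * orderOf (t ^ A.index) :=
      Nat.mul_pos (Nat.pos_of_ne_zero Subgroup.index_ne_zero_of_finite) (orderOf_pos _)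
    exact (orderOf_le_of_pow_eq_one h6 h5).trans (Nat.mul_le_mul hj h3)
  · set N := Subgroup.normalClosure ((Subgroup.zpowers t : Subgroup G) : Set G) with hN
    have hNn : N.Normal := Subgroup.normalClosure_normal
    have htN : t ∈ N := Subgroup.subset_normalClosure (Subgroup.mem_zpowers t)
    have h1 : Ys A hA t ≤ N := by
      intro x hx
      obtain ⟨a, _, rfl⟩ := mem_Ys.1 hx
      rw [commutatorElement_def]
      exact N.mul_mem (hNn.conj_mem t htN a) (N.inv_mem htN)
    have h2 : Nat.card (Xs A hA t) ≤ K := by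
      refine le_trans (Subgroup.card_le_of_le ?_) ht
      intro x hx
      obtain ⟨hxA, hc⟩ := mem_Xs.1 hx
      exact ⟨hxA, Subgroup.mem_centralizer_singleton_iff.2 hc⟩
    have h3 := Subgroup.card_le_of_le h1
    have h4 := card_XY_mul A hA t
    have h5 := N.card_mul_index
    have h6 := A.card_mul_index
    have h7 : Nat.card N * N.index ≤ Nat.card N * (j * K) := by
      calc Nat.card N * N.index = Nat.card A * A.index := by rw [h5, h6]
        _ = Nat.card (Ys A hA t) * (A.index * Nat.card (Xs A hA t)) := by rw [← h4]; ring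
        _ ≤ Nat.card N * (j * K) := Nat.mul_le_mul h3 (Nat.mul_le_mul hj h2)
    exact Nat.le_of_mul_le_mul_left h7 Nat.card_pos

theorem core_index {G : Type} [Group G] [Finite G] (A : Subgroup G) {m : ℕ} (hm : A.index ≤ m) :
    A.normalCore.index ≤ m.factorial := by
  have h1 : A.normalCore.index ∣ A.index.factorial := by
    rw [Subgroup.normalCore_eq_ker, Subgroup.index_ker, Subgroup.index_eq_card, ← Nat.card_perm]
    exact Subgroup.card_subgroup_dvd_card _
  exact (Nat.le_of_dvd (Nat.factorial_pos _) h1).trans (Nat.factorial_le hm)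

/-- **Good left ideals** of finite `p`-groups of bounded coclass. -/
theorem good_cc (F : Type) [Field F] [Fintype F] (p : ℕ) [Fact p.Prime] (m r : ℕ) :
    ∃ (s : ℕ) (δ : ℝ), 0 < δ ∧ ∀ (G : Type) [Group G] [Fintype G] (A : Subgroup G),
      IsPGroup p G → (∀ a ∈ A, ∀ b ∈ A, a * b = b * a) → A.index ≤ m → Cc p r G →
      ∃ C : Submodule F (G → F), (∀ c ∈ C, ∀ z : G, (fun x => c (z * x)) ∈ C) ∧
        Fintype.card G ≤ s * finrank F C ∧ ∀ c ∈ C, c ≠ 0 → δ * Fintype.card G < wt c := by
  obtain ⟨K, hK⟩ := exists_t p r m.factorial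
  obtain ⟨δ, hδ, h⟩ := good_pH F p m (m.factorial * K) (m.factorial * K)
  refine ⟨m.factorial * K, δ, hδ, ?_⟩
  intro G _ _ A hG hA hm hr
  have hA' : ∀ a ∈ A.normalCore, ∀ b ∈ A.normalCore, a * b = b * a :=
    fun a ha b hb => hA a (A.normalCore_le ha) b (A.normalCore_le hb)
  obtain ⟨t, ht⟩ := hK G A.normalCore hG hA' (core_index A hm) hr
  obtain ⟨h1, h2⟩ := zpowers_t A.normalCore hA' (core_index A hm) t ht
  exact h G A (Subgroup.zpowers t) hG hA hm h1 h2

/-- the existence theorem in the three cases -/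
theorem good_three (F : Type) [Field F] [Fintype F] (p : ℕ) [Fact p.Prime] [CharP F p] (m : ℕ) :
    ∃ r e : ℝ, 0 < r ∧ 0 < e ∧ ∀ (G : Type) [Group G] [Fintype G], IsPGroup p G →
      ((∃ g h : G, Commute g h ∧ (Subgroup.closure {g, h}).index ≤ m ∧
        Nat.card (Abelianization G) ≤ m) ∨
      ∃ A : Subgroup G, (∀ a ∈ A, ∀ b ∈ A, a * b = b * a) ∧ A.index ≤ m ∧
        ((∃ H : Subgroup G, Nat.card H ≤ m ∧
          (Subgroup.normalClosure (H : Set G)).index ≤ m) ∨
        Nat.card G ≤ p ^ (Group.nilpotencyClass G + m))) →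
      ∃ C : Submodule F (G → F), (∀ c ∈ C, ∀ z : G, (fun x => c (z * x)) ∈ C) ∧
        r * Fintype.card G ≤ finrank F C ∧ ∀ c ∈ C, c ≠ 0 → e * Fintype.card G < wt c := by
  obtain ⟨r, e, hr, he, h⟩ := good_class F p m m
  obtain ⟨e', he', h'⟩ := good_pH F p m m m
  obtain ⟨s, e'', he'', h''⟩ := good_cc F p m m
  have hm : (0 : ℝ) < (m : ℝ) + 1 := by positivity
  have hs : (0 : ℝ) < (s : ℝ) + 1 := by positivity
  refine ⟨min r (min (1 / (m + 1)) (1 / (s + 1))), min e (min e' e''),
    lt_min hr (lt_min (by positivity) (by positivity)), lt_min he (lt_min he' he''), ?_⟩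
  intro G _ _ hG hcase
  have hcard : (0 : ℝ) ≤ Fintype.card G := Nat.cast_nonneg _
  rcases hcase with ⟨g, h0, hgh, hi, hM⟩ | ⟨A, hA, hAm, ⟨H, hH, hN⟩ | hcc⟩
  · obtain ⟨C, hC1, hC2, hC3⟩ := h G hG ⟨g, h0, hgh, hi⟩ hM
    refine ⟨C, hC1, le_trans (mul_le_mul_of_nonneg_right (min_le_left _ _) hcard) hC2,
      fun c hc hc0 => ?_⟩
    exact lt_of_le_of_lt (mul_le_mul_of_nonneg_right (min_le_left _ _) hcard) (hC3 c hc hc0)
  · obtain ⟨C, hC1, hC2, hC3⟩ := h' G A H hG hA hAm hH hN
    refine ⟨C, hC1, le_trans (mul_le_mul_of_nonneg_right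
      ((min_le_right _ _).trans (min_le_left _ _)) hcard) ?_, fun c hc hc0 => ?_⟩
    · have h2 : (Fintype.card G : ℝ) ≤ m * finrank F C := by exact_mod_cast hC2
      rw [one_div, inv_mul_le_iff₀ hm]
      have h3 : (0 : ℝ) ≤ finrank F C := Nat.cast_nonneg _
      nlinarith
    · exact lt_of_le_of_lt (mul_le_mul_of_nonneg_right
        ((min_le_right _ _).trans (min_le_left _ _)) hcard) (hC3 c hc hc0)
  · obtain ⟨C, hC1, hC2, hC3⟩ := h'' G A hG hA hAm hcc
    refine ⟨C, hC1, le_trans (mul_le_mul_of_nonneg_right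
      ((min_le_right _ _).trans (min_le_right _ _)) hcard) ?_, fun c hc hc0 => ?_⟩
    · have h2 : (Fintype.card G : ℝ) ≤ s * finrank F C := by exact_mod_cast hC2
      rw [one_div, inv_mul_le_iff₀ hs]
      have h3 : (0 : ℝ) ≤ finrank F C := Nat.cast_nonneg _
      nlinarith
    · exact lt_of_le_of_lt (mul_le_mul_of_nonneg_right
        ((min_le_right _ _).trans (min_le_right _ _)) hcard) (hC3 c hc hc0)

/-- `G = A H` with small abelianization -/
theorem closure_index {G : Type} [Group G] [Finite G] (A H : Subgroup G) [A.Normal]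
    (hA : ∀ a ∈ A, ∀ b ∈ A, a * b = b * a) (hAH : A ⊔ H = ⊤) :
    (Subgroup.normalClosure (H : Set G)).index ≤ Nat.card (Abelianization G) := by
  have h1 : commutator G ≤ Subgroup.normalClosure (H : Set G) := by
    refine (comm_le A H hA hAH).trans ?_
    have hn : (Subgroup.normalClosure (H : Set G)).Normal := Subgroup.normalClosure_normal
    apply sup_le
    · rw [Subgroup.commutator_le]
      intro a _ h hh
      rw [commutatorElement_def]
      exact Subgroup.mul_mem _ (hn.conj_mem h (Subgroup.subset_normalClosure hh) a)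
        (Subgroup.inv_mem _ (Subgroup.subset_normalClosure hh))
    · exact Subgroup.subset_normalClosure
  exact Subgroup.index_antitone h1

end Run7.h505.RW
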